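import Pool.Agent.Lib.helper25.WangShi

namespace Pool.Agent.Results.MP_e74ad6_co.Bound

open Pool.Agent.Lib.helper25.WangShi

theorem result (A B C : ℝ × ℝ) (hT : (B - A).1 * (C - A).2 - (B - A).2 * (C - A).1 ≠ 0)
    (d : ℕ) (hd : 2 ≤ d) (s t : ℝ) (hs : 0 < s) (ht : 0 < t) (hst : s + t < 1) :
    {l ∈ WS A B C d | pt A B C s t ∈ l}.encard ≤ d + 1 :=
  main A B C hT d (by omega) s t hs ht hst

end Pool.Agent.Results.MP_e74ad6_co.Bound
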